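import Pool.Agent.Run7.h343.PV.Iface

/-!
Piece BOT of project PV (helper343): Rankin's trick.
-/

set_option autoImplicit false

namespace Pool.Agent.Run7.h343.PV

open Finset Complex

namespace BOT

theorem step {κ x : ℝ} (hκ : 0 < κ) (hx : 1 < x) :
    κ * (1 / x ^ (1 + κ)) ≤ (x - 1) ^ (-κ) - x ^ (-κ) := by
  have hx0 : 0 < x := by linarith
  have h1 : 0 < 1 - 1 / x := by
    rw [sub_pos, div_lt_one hx0]
    exact hx
  have h2 : x - 1 = x * (1 - 1 / x) := by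
    field_simp
  have h3 : (1 - 1 / x) ^ (-κ) ≥ 1 + κ / x := by
    rw [Real.rpow_def_of_pos h1]
    have h4 := Real.add_one_le_exp (Real.log (1 - 1 / x) * -κ)
    have h5 : Real.log (1 - 1 / x) ≤ -(1 / x) := by
      have := Real.log_le_sub_one_of_pos h1
      linarith
    have h6 : κ / x ≤ Real.log (1 - 1 / x) * -κ := by
      have : κ * Real.log (1 - 1 / x) ≤ κ * -(1 / x) := mul_le_mul_of_nonneg_left h5 hκ.le
      have h7 : κ / x = κ * (1 / x) := by ring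
      rw [h7]
      linarith
    linarith
  have h7 : (x - 1) ^ (-κ) = x ^ (-κ) * (1 - 1 / x) ^ (-κ) := by
    rw [h2, Real.mul_rpow hx0.le h1.le]
  have h8 : 0 < x ^ (-κ) := Real.rpow_pos_of_pos hx0 _
  have h9 : κ * (1 / x ^ (1 + κ)) = x ^ (-κ) * (κ / x) := by
    rw [Real.rpow_add hx0, Real.rpow_one, Real.rpow_neg hx0.le]
    have := (Real.rpow_pos_of_pos hx0 κ).ne'
    field_simp
  rw [h7, h9]
  have := mul_le_mul_of_nonneg_left h3 h8.le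
  nlinarith

theorem partial_le {κ : ℝ} (hκ : 0 < κ) (K : ℕ) :
    ∑ k ∈ range (K + 2), 1 / (k : ℝ) ^ (1 + κ) ≤ 1 + (1 - ((K : ℝ) + 1) ^ (-κ)) / κ := by
  induction K with
  | zero =>
    rw [Finset.sum_range_succ, Finset.sum_range_succ, Finset.sum_range_zero]
    simp only [Nat.cast_zero, Nat.cast_one, Real.one_rpow, zero_add, sub_self, zero_div, add_zero]
    rw [Real.zero_rpow (by linarith)]
    simp
  | succ K ih =>
    rw [Finset.sum_range_succ]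
    have h1 := step (x := (K : ℝ) + 2) hκ (by have : (0:ℝ) ≤ K := K.cast_nonneg; linarith)
    have h2 : 1 / (((K + 2 : ℕ) : ℝ)) ^ (1 + κ) ≤
        (((K : ℝ) + 2 - 1) ^ (-κ) - ((K : ℝ) + 2) ^ (-κ)) / κ := by
      rw [le_div_iff₀ hκ]
      push_cast
      linarith
    have h3 : ((K : ℝ) + 2 - 1) = (K : ℝ) + 1 := by ring
    rw [h3] at h2
    have h4 : (((K + 1 : ℕ) : ℝ) + 1) = (K : ℝ) + 2 := by push_cast; ring
    rw [h4]
    calc _ ≤ 1 + (1 - ((K : ℝ) + 1) ^ (-κ)) / κ +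
        (((K : ℝ) + 1) ^ (-κ) - ((K : ℝ) + 2) ^ (-κ)) / κ := add_le_add ih h2
      _ = _ := by ring

theorem zeta_summable {κ : ℝ} (hκ : 0 < κ) : Summable fun k : ℕ => 1 / (k : ℝ) ^ (1 + κ) :=
  Real.summable_one_div_nat_rpow.2 (by linarith)

theorem zeta_le {κ : ℝ} (hκ : 0 < κ) : ∑' k : ℕ, 1 / (k : ℝ) ^ (1 + κ) ≤ 1 + 1 / κ := by
  refine Real.tsum_le_of_sum_range_le (fun k => by positivity) fun n => ?_
  have h1 : ∑ k ∈ range n, 1 / (k : ℝ) ^ (1 + κ) ≤ ∑ k ∈ range (n + 2), 1 / (k : ℝ) ^ (1 + κ) :=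
    Finset.sum_le_sum_of_subset_of_nonneg
      (by intro a ha; rw [Finset.mem_range] at ha ⊢; omega) fun _ _ _ => by positivity
  refine h1.trans ((partial_le hκ n).trans ?_)
  have h2 : 0 ≤ ((n : ℝ) + 1) ^ (-κ) := by positivity
  have h3 : (1 - ((n : ℝ) + 1) ^ (-κ)) / κ ≤ 1 / κ := by
    apply div_le_div_of_nonneg_right _ hκ.le
    linarith
  linarith

theorem hasSum_dvd {κ : ℝ} (hκ : 0 < κ) (L : ℕ) (hL : 1 ≤ L) :
    HasSum (fun n : ℕ => if L ∣ n then 1 / (n : ℝ) ^ (1 + κ) else 0)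
      ((∑' k : ℕ, 1 / (k : ℝ) ^ (1 + κ)) / (L : ℝ) ^ (1 + κ)) := by
  have hinj : Function.Injective (fun k : ℕ => L * k) := fun a b h =>
    Nat.eq_of_mul_eq_mul_left (by omega) h
  rw [← hinj.hasSum_iff]
  · have h1 := (zeta_summable hκ).hasSum.div_const ((L : ℝ) ^ (1 + κ))
    have h2 : ((fun n : ℕ => if L ∣ n then 1 / (n : ℝ) ^ (1 + κ) else 0) ∘ fun k : ℕ => L * k) =
        fun k : ℕ => 1 / (k : ℝ) ^ (1 + κ) / (L : ℝ) ^ (1 + κ) := by
      funext k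
      simp only [Function.comp, dvd_mul_right, if_true]
      push_cast
      rw [Real.mul_rpow (by positivity) (by positivity), div_div, mul_comm]
    rw [h2]
    exact h1
  · intro n hn
    rw [if_neg]
    rintro ⟨k, rfl⟩
    exact hn ⟨k, rfl⟩

theorem PL_eq_zero {Y : ℝ} (hY : 2 ≤ Y) {l : ℕ} (hl : ⌊Y⌋₊ < l) : PL Y l = 0 := by
  have h1 : Y < l := (Nat.floor_lt (by linarith)).1 hl
  unfold PL
  apply max_eq_left
  have h2 : 0 < Real.log Y := Real.log_pos (by linarith)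
  have h3 : Real.log Y ≤ Real.log l := Real.log_le_log (by linarith) h1.le
  rw [sub_nonpos, le_div_iff₀ h2]
  linarith

theorem PL_nonneg (Y : ℝ) (l : ℕ) : 0 ≤ PL Y l := le_max_left _ _

theorem PL_le_one {Y : ℝ} (hY : 2 ≤ Y) (l : ℕ) : PL Y l ≤ 1 := by
  unfold PL
  refine max_le zero_le_one ?_
  have h2 : 0 < Real.log Y := Real.log_pos (by linarith)
  have h3 : 0 ≤ Real.log (l : ℝ) := Real.log_natCast_nonneg l
  have := div_nonneg h3 h2.le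
  linarith

theorem PL_lip {Y : ℝ} (hY : 2 ≤ Y) (d k : ℕ) (hd : 1 ≤ d) (hk : 1 ≤ k) :
    |PL Y (d * (k + 1)) - PL Y (d * k)| ≤ (1 / Real.log Y) / k := by
  have h2 : 0 < Real.log Y := Real.log_pos (by linarith)
  have hd' : (0 : ℝ) < d := by exact_mod_cast hd
  have hk' : (0 : ℝ) < k := by exact_mod_cast hk
  unfold PL
  refine (abs_max_sub_max_le_max _ _ _ _).trans ?_
  rw [sub_self, abs_zero]
  refine max_le (by positivity) ?_
  have h3 : (1 - Real.log ((d * (k + 1) : ℕ) : ℝ) / Real.log Y) -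
      (1 - Real.log ((d * k : ℕ) : ℝ) / Real.log Y) =
      -((Real.log (((k : ℝ) + 1) / k)) / Real.log Y) := by
    push_cast
    rw [Real.log_mul hd'.ne' (by positivity), Real.log_mul hd'.ne' hk'.ne',
      Real.log_div (by positivity) hk'.ne']
    ring
  rw [h3, abs_neg]
  have h4 : 0 ≤ Real.log (((k : ℝ) + 1) / k) := by
    apply Real.log_nonneg
    rw [le_div_iff₀ hk']
    linarith
  rw [abs_of_nonneg (div_nonneg h4 h2.le)]
  have h5 : Real.log (((k : ℝ) + 1) / k) ≤ 1 / k := by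
    have h6 := Real.log_le_sub_one_of_pos (x := ((k : ℝ) + 1) / k) (by positivity)
    have h7 : ((k : ℝ) + 1) / k - 1 = 1 / k := by field_simp; ring
    linarith
  calc Real.log (((k : ℝ) + 1) / k) / Real.log Y ≤ (1 / k) / Real.log Y :=
        div_le_div_of_nonneg_right h5 h2.le
    _ = (1 / Real.log Y) / k := by ring

theorem sum_divisors {Y : ℝ} (hY : 2 ≤ Y) (n : ℕ) (hn : 1 ≤ n) :
    ∑ l ∈ n.divisors, mu l * PL Y l =
      ∑ l ∈ Icc 1 ⌊Y⌋₊, if l ∣ n then mu l * PL Y l else 0 := by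
  rw [← Finset.sum_filter]
  symm
  apply Finset.sum_subset
  · intro l hl
    rw [Finset.mem_filter] at hl
    rw [Nat.mem_divisors]
    exact ⟨hl.2, by omega⟩
  · intro l hl hl2
    rw [Nat.mem_divisors] at hl
    have h1 : 1 ≤ l := Nat.pos_of_dvd_of_pos hl.1 hn
    have h2 : ⌊Y⌋₊ < l := by
      by_contra hc
      apply hl2
      rw [Finset.mem_filter, Finset.mem_Icc]
      exact ⟨⟨h1, by omega⟩, hl.1⟩
    rw [PL_eq_zero hY h2, mul_zero]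

theorem sq_expand {M n : ℕ} (c : ℕ → ℝ) (z : ℝ) :
    (∑ l ∈ Icc 1 M, if l ∣ n then c l else 0) ^ 2 * z =
      ∑ l₁ ∈ Icc 1 M, ∑ l₂ ∈ Icc 1 M, c l₁ * c l₂ * (if Nat.lcm l₁ l₂ ∣ n then z else 0) := by
  rw [sq, Finset.sum_mul_sum, Finset.sum_mul]
  refine Finset.sum_congr rfl fun l₁ _ => ?_
  rw [Finset.sum_mul]
  refine Finset.sum_congr rfl fun l₂ _ => ?_
  by_cases h1 : l₁ ∣ n
  · by_cases h2 : l₂ ∣ n
    · rw [if_pos h1, if_pos h2, if_pos (Nat.lcm_dvd h1 h2)]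
    · rw [if_neg h2, if_neg (fun h => h2 ((Nat.dvd_lcm_right l₁ l₂).trans h))]
      ring
  · rw [if_neg h1, if_neg (fun h => h1 ((Nat.dvd_lcm_left l₁ l₂).trans h))]
    ring

end BOT

open BOT in
theorem t_BOT (h : S_QF) : S_BOT := by
  obtain ⟨C, hC, hQ⟩ := h
  refine ⟨Real.exp 1 * C, by positivity, ?_⟩
  intro Y x₁ hY hx
  have hlY : 0 < Real.log Y := Real.log_pos (by linarith)
  have hlx : 1 ≤ Real.log x₁ := by
    rw [Real.le_log_iff_exp_le (by linarith)]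
    have := Real.exp_one_lt_d9
    linarith
  set κ : ℝ := 1 / Real.log x₁ with hκd
  have hκ : 0 < κ := by positivity
  have hκ1 : κ ≤ 1 := by
    rw [hκd, div_le_one (by linarith)]
    exact hlx
  set M : ℕ := ⌊Y⌋₊ with hM
  have hM1 : 1 ≤ M := Nat.le_floor (by push_cast; linarith)
  have hMY : (M : ℝ) ≤ Y := Nat.floor_le (by linarith)
  have hlM : Real.log M ≤ Real.log Y := Real.log_le_log (by exact_mod_cast hM1) hMY
  set c : ℕ → ℝ := fun l => mu l * PL Y l with hc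
  set Z : ℝ := ∑' k : ℕ, 1 / (k : ℝ) ^ (1 + κ) with hZ
  have hZ0 : 0 ≤ Z := tsum_nonneg fun k => by positivity
  have hZ1 : Z ≤ 1 + Real.log x₁ := by
    have h1 := zeta_le hκ
    have h2 : 1 / κ = Real.log x₁ := by rw [hκd, one_div_one_div]
    rw [h2] at h1
    exact h1
  -- the quadratic form
  have hQF := hQ M (1 + κ) (1 / Real.log Y) (PL Y) hM1 (by linarith) (by linarith) (by positivity)
    (fun l hl => PL_eq_zero hY hl)
    (fun l => by rw [abs_of_nonneg (PL_nonneg Y l)]; exact PL_le_one hY l)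
    (fun d k hd hk => PL_lip hY d k hd hk)
  have hsum : HasSum (fun n : ℕ => ∑ l₁ ∈ Icc 1 M, ∑ l₂ ∈ Icc 1 M,
      c l₁ * c l₂ * (if Nat.lcm l₁ l₂ ∣ n then 1 / (n : ℝ) ^ (1 + κ) else 0))
      (∑ l₁ ∈ Icc 1 M, ∑ l₂ ∈ Icc 1 M, c l₁ * c l₂ * (Z / ((Nat.lcm l₁ l₂ : ℕ) : ℝ) ^ (1 + κ))) := by
    refine hasSum_sum fun l₁ h1 => hasSum_sum fun l₂ h2 => ?_
    refine (hasSum_dvd hκ _ ?_).mul_left _
    rw [Finset.mem_Icc] at h1 h2
    exact Nat.lcm_pos (by omega) (by omega)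
  have htot : (∑ l₁ ∈ Icc 1 M, ∑ l₂ ∈ Icc 1 M,
      c l₁ * c l₂ * (Z / ((Nat.lcm l₁ l₂ : ℕ) : ℝ) ^ (1 + κ))) =
      Z * ∑ l₁ ∈ Icc 1 M, ∑ l₂ ∈ Icc 1 M, mu l₁ * mu l₂ * PL Y l₁ * PL Y l₂ /
        ((Nat.lcm l₁ l₂ : ℕ) : ℝ) ^ (1 + κ) := by
    rw [Finset.mul_sum]
    refine Finset.sum_congr rfl fun l₁ _ => ?_
    rw [Finset.mul_sum]
    refine Finset.sum_congr rfl fun l₂ _ => ?_
    rw [hc]
    ring
  have hpt : ∀ n ∈ Icc 1 ⌊x₁⌋₊, (∑ l ∈ n.divisors, mu l * PL Y l) ^ 2 / n ≤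
      Real.exp 1 * ∑ l₁ ∈ Icc 1 M, ∑ l₂ ∈ Icc 1 M,
      c l₁ * c l₂ * (if Nat.lcm l₁ l₂ ∣ n then 1 / (n : ℝ) ^ (1 + κ) else 0) := by
    intro n hn
    rw [Finset.mem_Icc] at hn
    have hn0 : (0 : ℝ) < n := by exact_mod_cast hn.1
    have hnx : (n : ℝ) ≤ x₁ := (Nat.le_floor_iff (by linarith)).1 hn.2
    rw [← sq_expand c (1 / (n : ℝ) ^ (1 + κ)), ← sum_divisors hY n hn.1]
    have h1 : 1 / (n : ℝ) ≤ Real.exp 1 * (1 / (n : ℝ) ^ (1 + κ)) := by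
      rw [Real.rpow_add hn0, Real.rpow_one]
      have h2 : (n : ℝ) ^ κ ≤ Real.exp 1 := by
        calc (n : ℝ) ^ κ ≤ x₁ ^ κ := Real.rpow_le_rpow hn0.le hnx hκ.le
          _ = Real.exp 1 := by
            rw [Real.rpow_def_of_pos (by linarith), hκd]
            congr 1
            field_simp
      have h3 : 0 < (n : ℝ) ^ κ := Real.rpow_pos_of_pos hn0 _
      have h4 : Real.exp 1 * (1 / ((n : ℝ) * (n : ℝ) ^ κ)) = (1 / n) * (Real.exp 1 / (n : ℝ) ^ κ) := by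
        field_simp
      rw [h4]
      have h5 : 1 ≤ Real.exp 1 / (n : ℝ) ^ κ := by
        rw [le_div_iff₀ h3]
        linarith
      have h6 : 0 ≤ 1 / (n : ℝ) := by positivity
      nlinarith
    have h2 : 0 ≤ (∑ l ∈ n.divisors, mu l * PL Y l) ^ 2 := sq_nonneg _
    calc (∑ l ∈ n.divisors, mu l * PL Y l) ^ 2 / n
        = (∑ l ∈ n.divisors, mu l * PL Y l) ^ 2 * (1 / n) := by ring
      _ ≤ (∑ l ∈ n.divisors, mu l * PL Y l) ^ 2 * (Real.exp 1 * (1 / (n : ℝ) ^ (1 + κ))) :=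
          mul_le_mul_of_nonneg_left h1 h2
      _ = _ := by ring
  have hnonneg : ∀ n : ℕ, 0 ≤ ∑ l₁ ∈ Icc 1 M, ∑ l₂ ∈ Icc 1 M,
      c l₁ * c l₂ * (if Nat.lcm l₁ l₂ ∣ n then 1 / (n : ℝ) ^ (1 + κ) else 0) := by
    intro n
    rw [← sq_expand c (1 / (n : ℝ) ^ (1 + κ))]
    positivity
  calc ∑ n ∈ Icc 1 ⌊x₁⌋₊, (∑ l ∈ n.divisors, mu l * PL Y l) ^ 2 / n
      ≤ ∑ n ∈ Icc 1 ⌊x₁⌋₊, Real.exp 1 * ∑ l₁ ∈ Icc 1 M, ∑ l₂ ∈ Icc 1 M,
        c l₁ * c l₂ * (if Nat.lcm l₁ l₂ ∣ n then 1 / (n : ℝ) ^ (1 + κ) else 0) :=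
        Finset.sum_le_sum hpt
    _ = Real.exp 1 * ∑ n ∈ Icc 1 ⌊x₁⌋₊, ∑ l₁ ∈ Icc 1 M, ∑ l₂ ∈ Icc 1 M,
        c l₁ * c l₂ * (if Nat.lcm l₁ l₂ ∣ n then 1 / (n : ℝ) ^ (1 + κ) else 0) := by
        rw [Finset.mul_sum]
    _ ≤ Real.exp 1 * (Z * ∑ l₁ ∈ Icc 1 M, ∑ l₂ ∈ Icc 1 M, mu l₁ * mu l₂ * PL Y l₁ * PL Y l₂ /
        ((Nat.lcm l₁ l₂ : ℕ) : ℝ) ^ (1 + κ)) := by
        rw [← htot]
        exact mul_le_mul_of_nonneg_left (sum_le_hasSum _ (fun n _ => hnonneg n) hsum)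
          (Real.exp_pos 1).le
    _ ≤ Real.exp 1 * (Z * (C * (1 / Real.log Y + (1 + κ - 1)) ^ 2 * (1 + Real.log M))) := by
        exact mul_le_mul_of_nonneg_left (mul_le_mul_of_nonneg_left hQF hZ0) (Real.exp_pos 1).le
    _ ≤ Real.exp 1 * ((1 + Real.log x₁) *
        (C * (1 / Real.log Y + 1 / Real.log x₁) ^ 2 * (1 + Real.log Y))) := by
        have h1 : 1 / Real.log Y + (1 + κ - 1) = 1 / Real.log Y + 1 / Real.log x₁ := by
          rw [hκd]; ring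
        rw [h1]
        have h2 : 0 ≤ C * (1 / Real.log Y + 1 / Real.log x₁) ^ 2 := by positivity
        have h3 : 0 ≤ Real.log M := Real.log_natCast_nonneg M
        apply mul_le_mul_of_nonneg_left _ (Real.exp_pos 1).le
        apply mul_le_mul hZ1 _ (by positivity) (by linarith)
        exact mul_le_mul_of_nonneg_left (by linarith) h2
    _ = _ := by ring

end Pool.Agent.Run7.h343.PV
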